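import Pool.Agent.Lib.MP_bf05b2_gt.H57Fin
import Pool.Agent.Lib.MP_bf05b2_gt.H24Glue

/-! Toric manifolds are not cohomologically rigid. -/

namespace Pool.Agent.Results.MP_bf05b2_gt.NotRigid

open Pool.Agent.Lib.MP_bf05b2_gt

theorem result : ∃ F₁ F₂ : Fan (Fin 14 ⊕ Fin 2) (Option (Fin 3)),
    F₁.IsSmoothComplete ∧ F₂.IsSmoothComplete ∧ RingIso F₁.T F₂.T ∧
      IsEmpty (F₁.T ≃ₜ F₂.T) ∧ IsEmpty (ContinuousMap.HomotopyEquiv F₁.T F₂.T) :=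
  have e₁ := sm_FX.homeo isc_FX.face
  have e₂ := sm_FY.homeo isc_FY.face
  have h : IsEmpty (ContinuousMap.HomotopyEquiv FX.T FY.T) := ⟨fun e => not_homotopyEquiv.false
    ((e₁.symm.toHomotopyEquiv.trans e).trans e₂.toHomotopyEquiv)⟩
  ⟨FX, FY, isc_FX, isc_FY,
    ((ringIso_of_homeo e₁).trans ringIso_XY).trans (ringIso_of_homeo e₂.symm),
    ⟨fun e => h.false e.toHomotopyEquiv⟩, h⟩

end Pool.Agent.Results.MP_bf05b2_gt.NotRigid
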